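import Pool.Agent.Work.MP_dc0135_an.Defs
import Pool.Agent.Work.MP_dc0135_an.Hedge.HDefs
import Pool.Agent.Work.MP_dc0135_an.Hedge.MainU

open MeasureTheory Pool.Agent.Work.MP_dc0135_an Pool.Agent.Work.MP_dc0135_an.Hedge

namespace Pool.Agent.Results.MP_dc0135_an.NonSIN

/-- Every (second countable, Hausdorff) locally compact group that is not a SIN-group carries a
Segal algebra that has no approximate diagonal. -/
theorem result (G : Type) [Group G] [TopologicalSpace G] [IsTopologicalGroup G]
    [LocallyCompactSpace G] [T2Space G] [SecondCountableTopology G] [MeasurableSpace G]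
    [BorelSpace G] (μ : Measure G) [μ.IsHaarMeasure] (hSIN : ¬ IsSIN G) :
    ∃ (A : Type) (_ : NonUnitalNormedRing A) (_ : NormedSpace ℂ A) (_ : IsScalarTower ℂ A A)
      (_ : SMulCommClass ℂ A A) (_ : CompleteSpace A) (j : A →ₗ[ℂ] Lp ℂ 1 μ),
      IsSegalAlgebra μ A j ∧ ¬ IsPseudoAmenable A :=
  exists_segal_of_not_SIN μ hSIN

end Pool.Agent.Results.MP_dc0135_an.NonSIN
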