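import Pool.Agent.Work.MP_dc0135_an.Defs
import Pool.Agent.Work.MP_dc0135_an.Hedge.HDefs
import Pool.Agent.Work.MP_dc0135_an.Hedge.MainB

open MeasureTheory Pool.Agent.Work.MP_dc0135_an Pool.Agent.Work.MP_dc0135_an.Hedge

namespace Pool.Agent.Results.MP_dc0135_an.SquareIntegrable

/-- Let `G` be a (second countable, Hausdorff) locally compact IN-group that is not a SIN-group.
No Segal algebra on `G` that consists of square integrable functions and contains every square
integrable function vanishing off a compact set, such as `L¹(G) ∩ L²(G)`, has an approximate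
diagonal. -/
theorem result (G : Type) [Group G] [TopologicalSpace G] [IsTopologicalGroup G]
    [LocallyCompactSpace G] [T2Space G] [SecondCountableTopology G] [MeasurableSpace G]
    [BorelSpace G] (μ : Measure G) [μ.IsHaarMeasure] (hIN : IsIN G) (hSIN : ¬ IsSIN G)
    (A : Type) [NonUnitalNormedRing A] [NormedSpace ℂ A] [IsScalarTower ℂ A A]
    [SMulCommClass ℂ A A] [CompleteSpace A] (j : A →ₗ[ℂ] Lp ℂ 1 μ) (hA : IsSegalAlgebra μ A j)
    (h2 : ∀ a : A, MemLp (j a) 2 μ)
    (hc : ∀ f : Lp ℂ 1 μ, MemLp f 2 μ → (∃ K : Set G, IsCompact K ∧ ∀ᵐ x ∂μ, x ∉ K → f x = 0) →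
      ∃ a : A, j a = f) :
    ¬ IsPseudoAmenable A :=
  not_pseudoAmenable_of_IN μ hIN hSIN j hA h2 hc

end Pool.Agent.Results.MP_dc0135_an.SquareIntegrable
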