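import Pool.Agent.Work.MP_dc0135_an.Defs
import Pool.Agent.Work.MP_dc0135_an.Hedge.Example

open MeasureTheory Pool.Agent.Work.MP_dc0135_an Pool.Agent.Work.MP_dc0135_an.Hedge

namespace Pool.Agent.Results.MP_dc0135_an.Symmetric

theorem cont_right {G : Type} [Group G] [TopologicalSpace G] [IsTopologicalGroup G]
    [LocallyCompactSpace G] [T2Space G] [SecondCountableTopology G] [MeasurableSpace G]
    [BorelSpace G] (μ : Measure G) [μ.IsHaarMeasure] [μ.IsMulRightInvariant] (p : ENNReal)
    [Fact (1 ≤ p)] (hp : p ≠ ⊤) (f : Lp ℂ p μ) :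
    Continuous fun x : G =>
      Lp.compMeasurePreserving (fun y => y * x) (measurePreserving_mul_right μ x) f := by
  let g : G → C(G, G) := fun x => ⟨fun y => y * x, by fun_prop⟩
  have hg : Continuous g := by
    apply ContinuousMap.continuous_of_continuous_uncurry
    simp only [g]
    exact continuous_snd.mul continuous_fst
  exact Continuous.compMeasurePreservingLp (μ := μ) (ν := μ) (continuous_const (y := f)) hg
    (fun x => measurePreserving_mul_right μ x) hp

theorem exists_right {G : Type} [Group G] [TopologicalSpace G] [IsTopologicalGroup G]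
    [LocallyCompactSpace G] [T2Space G] [SecondCountableTopology G] [MeasurableSpace G]
    [BorelSpace G] (μ : Measure G) [μ.IsHaarMeasure] [μ.IsMulRightInvariant] :
    ∃ R : G → B12 μ → B12 μ, (∀ x a, j1 μ (R x a) =ᵐ[μ] fun y => j1 μ a (y * x)) ∧
      (∀ x a, ‖R x a‖ = ‖a‖) ∧ ∀ a, Continuous fun x => R x a := by
  refine ⟨fun x a =>
    ⟨(Lp.compMeasurePreserving (fun y => y * x) (measurePreserving_mul_right μ x) a.1.1,
      Lp.compMeasurePreserving (fun y => y * x) (measurePreserving_mul_right μ x) a.1.2),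
      (Lp.coeFn_compMeasurePreserving _ _).trans
        (((measurePreserving_mul_right μ x).quasiMeasurePreserving.ae_eq_comp (j12 μ a)).trans
          (Lp.coeFn_compMeasurePreserving _ _).symm)⟩,
    fun x a => Lp.coeFn_compMeasurePreserving _ _, fun x a => ?_, fun a =>
      ((cont_right μ 1 ENNReal.one_ne_top a.1.1).prodMk
        (cont_right μ 2 ENNReal.ofNat_ne_top a.1.2)).subtype_mk _⟩
  change max ‖Lp.compMeasurePreserving _ (measurePreserving_mul_right μ x) a.1.1‖
    ‖Lp.compMeasurePreserving _ (measurePreserving_mul_right μ x) a.1.2‖ = max ‖a.1.1‖ ‖a.1.2‖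
  rw [Lp.norm_compMeasurePreserving, Lp.norm_compMeasurePreserving]

attribute [local instance] SegalData.algNormedAddCommGroup SegalData.algNormedSpace
  SegalData.algCompleteSpace SegalData.algRing SegalData.algTower SegalData.algComm

/-- There is an amenable unimodular (second countable, Hausdorff) locally compact group `G` on
which the symmetric Segal algebra `L¹(G) ∩ L²(G)` has no approximate diagonal. -/
theorem result :
    ∃ (G : Type) (_ : Group G) (_ : TopologicalSpace G) (_ : IsTopologicalGroup G)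
      (_ : LocallyCompactSpace G) (_ : T2Space G) (_ : SecondCountableTopology G)
      (_ : MeasurableSpace G) (_ : BorelSpace G) (μ : Measure G) (_ : μ.IsHaarMeasure),
      μ.IsMulRightInvariant ∧ IsAmenable μ ∧
      ∃ (A : Type) (_ : NonUnitalNormedRing A) (_ : NormedSpace ℂ A) (_ : IsScalarTower ℂ A A)
        (_ : SMulCommClass ℂ A A) (_ : CompleteSpace A) (j : A →ₗ[ℂ] Lp ℂ 1 μ),
        IsSegalAlgebra μ A j ∧ (∀ f : Lp ℂ 1 μ, (∃ a : A, j a = f) ↔ MemLp f 2 μ) ∧
        (∃ R : G → A → A, (∀ x a, j (R x a) =ᵐ[μ] fun y => j a (y * x)) ∧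
          (∀ x a, ‖R x a‖ = ‖a‖) ∧ ∀ a, Continuous fun x => R x a) ∧
        ¬ IsPseudoAmenable A := by
  have hi : mG.IsInvInvariant := isIN_GG.isInvInvariant mG
  have hr : mG.IsMulRightInvariant := by
    rw [← Measure.inv_eq_self mG]
    infer_instance
  have hj : ∀ f : Lp ℂ 1 mG, (∃ a : (segalB mG).Alg, (segalB mG).j.toLinearMap a = f) ↔
      MemLp f 2 mG := fun f =>
    ⟨fun ⟨a, ha⟩ => ha ▸ (memLp_congr_ae (j12 mG a)).2 (Lp.memLp _),
      fun hf => ⟨(⟨(f, hf.toLp), hf.coeFn_toLp.symm⟩ : B12 mG), rfl⟩⟩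
  exact ⟨GG, inferInstance, inferInstance, inferInstance, inferInstance, inferInstance,
    inferInstance, inferInstance, inferInstance, mG, inferInstance, hr, isAmenable_GG,
    (segalB mG).Alg, inferInstance, inferInstance, inferInstance, inferInstance, inferInstance,
    (segalB mG).j.toLinearMap, (segalB mG).isSegalAlgebra, hj, exists_right mG,
    not_pseudoAmenable_of_IN mG isIN_GG not_isSIN_GG _ (segalB mG).isSegalAlgebra
      (fun a => (hj _).1 ⟨a, rfl⟩) fun f hf _ => (hj f).2 hf⟩

end Pool.Agent.Results.MP_dc0135_an.Symmetric
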